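import Mathlib

namespace Pool.Agent.Lib.MP_08a7f3_co

/-- The Hamiltonian spectrum: lengths of the cyclic orderings of all vertices. -/
def spectrum {V : Type} (G : SimpleGraph V) : Set ℕ :=
  {k | ∃ l : List V, l.Nodup ∧ (∀ v, v ∈ l) ∧ k = (List.zipWith G.dist l (l.rotate 1)).sum}

end Pool.Agent.Lib.MP_08a7f3_co
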