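import Pool.Agent.Lib.MP_08a7f3_co.Quad

/-! Descent of a token to a neighbour of the edge; the free arc can be permuted. -/

namespace Pool.Agent.Lib.MP_08a7f3_co

variable {V : Type} {G : SimpleGraph V}

lemma exists_parent (hG : G.Connected) {b v : V} (h : v ≠ b) :
    ∃ p, G.Adj v p ∧ G.dist b p + 1 = G.dist b v := by
  obtain ⟨q, hq⟩ := hG.exists_walk_length_eq_dist v b
  cases q with
  | nil => exact absurd rfl h
  | @cons _ p _ hvp q =>
    refine ⟨p, hvp, ?_⟩
    have h1 := SimpleGraph.dist_le q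
    have h2 := dist_adj hG hvp b
    have h3 := dc G b p
    have h4 := dc G b v
    rw [SimpleGraph.Walk.length_cons] at hq
    omega

section
variable {t : ℕ} {b c : V}

lemma step (C : Ctx G t b c) {v : V} (y : V) (hvb : v ≠ b) (hvc : v ≠ c) (h1 : ¬ G.Adj b v)
    (h2 : ¬ G.Adj c v) :
    ∃ p, G.Adj v p ∧ p ≠ b ∧ p ≠ c ∧
      min (G.dist b p) (G.dist c p) < min (G.dist b v) (G.dist c v) ∧
      (¬ Z G b c v → ¬ Z G b c p) ∧ (Z G b c v → ¬ Z G b c y → p ≠ y) := by
  obtain ⟨p, hp, ep⟩ := exists_parent C.conn hvb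
  obtain ⟨q, hq, eq⟩ := exists_parent C.conn hvc
  have a1 := dist_adj C.conn C.adj v
  have a2 := dist_adj C.conn C.adj.symm v
  have a3 := dist_adj C.conn C.adj p
  have a4 := dist_adj C.conn C.adj.symm p
  have a5 := dist_adj C.conn C.adj q
  have a6 := dist_adj C.conn C.adj.symm q
  have a7 := dist_adj C.conn hp c
  have a8 := dist_adj C.conn hq b
  have b1 := dc G v c
  have b2 := dc G p c
  have b3 := dc G v b
  have b4 := dc G q b
  have pb : p ≠ b := fun e => h1 (e ▸ hp.symm)
  have pc : p ≠ c := fun e => h2 (e ▸ hp.symm)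
  have qb : q ≠ b := fun e => h1 (e ▸ hq.symm)
  have qc : q ≠ c := fun e => h2 (e ▸ hq.symm)
  simp only [Z]
  rcases lt_trichotomy (G.dist b v) (G.dist c v) with h | h | h
  · exact ⟨p, hp, pb, pc, by omega, by omega, by omega⟩
  · by_cases hy : G.dist b y < G.dist c y
    · exact ⟨q, hq, qb, qc, by omega, by omega, fun _ _ e => by subst e; omega⟩
    · exact ⟨p, hp, pb, pc, by omega, by omega, fun _ _ e => by subst e; omega⟩
  · exact ⟨q, hq, qb, qc, by omega, by omega, by omega⟩

lemma tog_zu (C : Ctx G t b c) {x y : V} (hx : Z G b c x) (hy : ¬ Z G b c y) (M : List V) :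
    Tog G b c (x :: (M ++ [y])) := (tog_iff C x M y).2 (iff_of_true hx hy)

/-- adjacency inside `Z` -/
def ZA (G : SimpleGraph V) (b c z z' : V) : Prop := G.Adj z z' ∧ Z G b c z ∧ Z G b c z'

lemma descend (C : Ctx G t b c) (n : ℕ) : ∀ x y v : V, min (G.dist b v) (G.dist c v) ≤ n →
    Z G b c x → ¬ Z G b c y → v ≠ x → v ≠ b → v ≠ c →
    ∃ π : Equiv.Perm V, π b = b ∧ π c = c ∧ (G.Adj b (π v) ∨ G.Adj c (π v)) ∧
      Z G b c (π x) ∧ ¬ Z G b c (π y) ∧ Relation.ReflTransGen (ZA G b c) x (π x) ∧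
      (¬ Z G b c v → ∀ u, Z G b c u → π u = u) ∧
      ∀ M J, OK b c (x :: (M ++ [y]) ++ J) →
        (Lo G t b c (x :: (M ++ [y])) J ↔
          Lo G t b c (π x :: (M.map π ++ [π y])) (J.map π)) := by
  classical
  induction n with
  | zero =>
    intro x y v hn _ _ _ hb hc
    have := dpos C.conn hb.symm
    have := dpos C.conn hc.symm
    omega
  | succ n ih =>
    intro x y v hn hx hy hvx hvb hvc
    by_cases h0 : G.Adj b v ∨ G.Adj c v
    · exact ⟨1, rfl, rfl, h0, hx, hy, Relation.ReflTransGen.refl, fun _ _ _ => rfl,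
        fun M J _ => by simp⟩
    rw [not_or] at h0
    obtain ⟨p, hp, pb, pc, hlt, hU, hZ⟩ := step C y hvb hvc h0.1 h0.2
    set σ := Equiv.swap v p with hσ
    have sx : Z G b c (σ x) ∧ Relation.ReflTransGen (ZA G b c) x (σ x) ∧ p ≠ σ x := by
      by_cases e : x = p
      · subst e
        have hv : Z G b c v := by_contra fun h => hU h hx
        rw [hσ, Equiv.swap_apply_right]
        exact ⟨hv, Relation.ReflTransGen.single ⟨hp.symm, hx, hv⟩, hp.ne.symm⟩
      · rw [hσ, Equiv.swap_apply_of_ne_of_ne hvx.symm e]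
        exact ⟨hx, Relation.ReflTransGen.refl, Ne.symm e⟩
    have sy : ¬ Z G b c (σ y) := by
      by_cases e : y = v
      · subst e
        rw [hσ, Equiv.swap_apply_left]; exact hU hy
      by_cases e' : y = p
      · subst e'
        rw [hσ, Equiv.swap_apply_right]
        exact fun h => hZ h hy rfl
      · rw [hσ, Equiv.swap_apply_of_ne_of_ne e e']; exact hy
    obtain ⟨π, h1, h2, h3, h4, h5, h6, h7, h8⟩ :=
      ih (σ x) (σ y) p (by omega) sx.1 sy sx.2.2 pb pc
    have sb : σ b = b := Equiv.swap_apply_of_ne_of_ne hvb.symm pb.symm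
    have sc : σ c = c := Equiv.swap_apply_of_ne_of_ne hvc.symm pc.symm
    have sv : σ v = p := Equiv.swap_apply_left _ _
    refine ⟨π * σ, by simp [sb, h1], by simp [sc, h2], by simpa [sv] using h3, h4, h5,
      sx.2.1.trans h6, fun hv u hu => ?_, fun M J h => ?_⟩
    · have : σ u = u := Equiv.swap_apply_of_ne_of_ne (fun e => hv (e ▸ hu))
        (fun e => hU hv (e ▸ hu))
      simp [this, h7 (hU hv) u hu]
    · have l1 := swap_link C h (tog_zu C hx hy M) hp ⟨hvb, hvc⟩ ⟨pb, pc⟩
        (by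
          rw [List.map_cons, List.map_append, List.map_singleton]
          exact tog_zu C sx.1 sy _)
      have h' := h.map σ sb sc
      simp only [List.map_cons, List.map_append, List.map_nil,
        ← hσ] at l1 h'
      rw [l1, h8 _ _ h']
      simp only [List.map_map, Equiv.Perm.coe_mul, Function.comp_apply]

/-- prefix reversal in the free arc, in general -/
lemma prefix_rev (C : Ctx G t b c) {x y : V} (hx : Z G b c x) (hy : ¬ Z G b c y)
    {M A B : List V} (h : OK b c (x :: (M ++ [y]) ++ (A ++ B))) :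
    Lo G t b c (x :: (M ++ [y])) (A ++ B) ↔ Lo G t b c (x :: (M ++ [y])) (A.reverse ++ B) := by
  rcases B with _ | ⟨v, B⟩
  · simp only [List.append_nil, Lo_revJ]
  have hv := h.ne (v := v) (by simp)
  have hvx : v ≠ x := by
    rintro rfl
    have := h.nodup
    simp at this
  obtain ⟨π, h1, h2, h3, h4, h5, -, -, h8⟩ := descend C _ x y v le_rfl hx hy hvx hv.1 hv.2
  have h' := h.map π h1 h2
  rw [h8 _ _ h, h8 _ _ (h.perm (pcnt fun f => by simp <;> ring))]
  simp only [List.map_cons, List.map_append, List.map_nil,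
    List.map_reverse] at h' ⊢
  have hT := tog_zu C h4 h5 (M.map π)
  rcases h3 with h3 | h3
  · exact p3_link C h3 h' hT
  · rw [Lo_symm, Lo_symm b c]
    exact p3_link C.symm h3 h'.symm ((Tog_symm _ _ _).1 hT)

lemma pancake (C : Ctx G t b c) {x y : V} (hx : Z G b c x) (hy : ¬ Z G b c y) (M : List V)
    {J J' : List V} (p : J.Perm J') : ∀ S, OK b c (x :: (M ++ [y]) ++ (S ++ J)) →
    (Lo G t b c (x :: (M ++ [y])) (S ++ J) ↔ Lo G t b c (x :: (M ++ [y])) (S ++ J')) := by
  induction p with
  | nil => intro S _; rfl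
  | cons a _ ih =>
    intro S h
    have := ih (S ++ [a]) (by simpa using h)
    simpa using this
  | swap a a' l =>
    intro S h
    have e1 := prefix_rev C hx hy (M := M) (A := S ++ [a', a]) (B := l) (h.perm (pcnt fun f => by simp <;> ring))
    have e2 := prefix_rev C hx hy (M := M) (A := [a, a']) (B := S.reverse ++ l)
      (h.perm (pcnt fun f => by simp <;> ring))
    have e3 := prefix_rev C hx hy (M := M) (A := S ++ [a, a']) (B := l) (h.perm (pcnt fun f => by simp <;> ring))
    simp only [List.append_assoc, List.cons_append, List.nil_append, List.reverse_append,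
      List.reverse_cons, List.reverse_nil] at e1 e2 e3 ⊢
    rw [e1, e2, e3]
  | trans p _ ih1 ih2 =>
    intro S h
    rw [ih1 S h, ih2 S (h.perm ((p.append_left S).append_left _))]

lemma free (C : Ctx G t b c) {x y : V} (hx : Z G b c x) (hy : ¬ Z G b c y) {J J' : List V}
    (h : OK b c ([x, y] ++ J)) (h' : OK b c ([x, y] ++ J')) :
    Lo G t b c [x, y] J ↔ Lo G t b c [x, y] J' :=
  pancake C hx hy [] (h.cancel h') [] h

/-- cut link for a neighbour of `b` or of `c` -/
lemma cut_link' (C : Ctx G t b c) {P R : List V} {r : V} (hr : G.Adj b r ∨ G.Adj c r)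
    (h : OK b c (P ++ r :: R)) (hT : Tog G b c (P ++ [r]) ∨ Tog G b c R)
    (hT' : Tog G b c (P ++ r :: R)) :
    Lo G t b c (P ++ [r]) R ↔ Lo G t b c (P ++ r :: R) [] := by
  rcases hr with hr | hr
  · exact cut_link C hr h hT hT'
  · rw [Lo_symm, Lo_symm b c]
    simp only [Tog_symm b c] at hT hT'
    exact cut_link C.symm hr h.symm hT hT'

lemma ylink [Finite V] (C : Ctx G t b c) {x y y' : V} (hx : Z G b c x) (hy : ¬ Z G b c y)
    (hy' : ¬ Z G b c y') {J J' : List V}
    (h : OK b c ([x, y] ++ J)) (h' : OK b c ([x, y'] ++ J')) :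
    Lo G t b c [x, y] J ↔ Lo G t b c [x, y'] J' := by
  classical
  by_cases e : y = y'
  · subst e; exact free C hx hy h h'
  have nx := h.ne (v := x) (by simp)
  have ny := h.ne (v := y) (by simp)
  have ny' := h'.ne (v := y') (by simp)
  have xy : y ≠ x := fun e => hy (e ▸ hx)
  have xy' : y' ≠ x := fun e => hy' (e ▸ hx)
  have bc := C.adj.ne
  by_cases hb : G.Adj b x
  · have hc : G.Adj c x := by
      rw [← SimpleGraph.dist_eq_one_iff_adj, ← hx]; exact d1 hb
    obtain ⟨π, h1, h2, h3, -, h5, -, h7, h8⟩ := descend C _ x y y le_rfl hx hy xy ny.1 ny.2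
    obtain ⟨π', h1', h2', h3', -, h5', -, h7', h8'⟩ :=
      descend C _ x y' y' le_rfl hx hy' xy' ny'.1 ny'.2
    have k := h8 [] J h
    have k' := h8' [] J' h'
    have o := h.map π h1 h2
    have o' := h'.map π' h1' h2'
    simp only [List.map_cons, List.map_append, List.map_nil, List.nil_append, h7 hy x hx,
      h7' hy' x hx] at k k' o o'
    rw [k, k']
    generalize π y = r at *
    generalize π' y' = r' at *
    by_cases e' : r = r'
    · subst e'; exact free C hx h5 o o'
    have nr := o.ne (v := r) (by simp)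
    have nr' := o'.ne (v := r') (by simp)
    have xr : x ≠ r := fun e => h5 (e ▸ hx)
    have xr' : x ≠ r' := fun e => h5' (e ▸ hx)
    obtain ⟨R, hR⟩ := exists_rest [b, c, x, r, r'] (by
      simp [bc, nx.1.symm, nx.2.symm, nr.1.symm, nr.2.symm, nr'.1.symm, nr'.2.symm, xr, xr', e'])
    have hR : OK b c (x :: r :: r' :: R) := hR
    have T1 := tog_zu C hx h5' (r :: R)
    have T2 := tog_zu C hx h5 (r' :: R.reverse)
    have c1 := cut_link' C (P := [x]) (R := R ++ [r']) h3 (hR.perm (pcnt fun f => by simp <;> ring))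
      (Or.inl (by simpa using tog_zu C hx h5 [])) (by simpa using T1)
    have c2 := cut_link' C (P := [x]) (R := R.reverse ++ [r]) h3' (hR.perm (pcnt fun f => by simp <;> ring))
      (Or.inl (by simpa using tog_zu C hx h5' [])) (by simpa using T2)
    have c3 := p1_link C (N := r :: (R ++ [r'])) hb hc (hR.perm (pcnt fun f => by simp <;> ring)) (by simpa using T1)
      (by simpa using T2)
    simp only [List.cons_append, List.nil_append, List.reverse_cons, List.reverse_append,
      List.reverse_nil] at c1 c2 c3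
    rw [free C hx h5 o (J' := R ++ [r']) (hR.perm (pcnt fun f => by simp <;> ring)),
      free C hx h5' o' (J' := R.reverse ++ [r]) (hR.perm (pcnt fun f => by simp <;> ring)), c1, c2, c3]
  have hc : ¬ G.Adj c x := by
    rw [← SimpleGraph.dist_eq_one_iff_adj, ← hx, SimpleGraph.dist_eq_one_iff_adj]; exact hb
  have l3 : ∀ p, G.Adj x p → p ≠ y → p ≠ y' →
      (Lo G t b c [x, y] J ↔ Lo G t b c [x, y'] J') := by
    intro p hp py py'
    have pb : p ≠ b := fun e => hb (e ▸ hp.symm)
    have pc : p ≠ c := fun e => hc (e ▸ hp.symm)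
    obtain ⟨R, hR⟩ := exists_rest [b, c, x, y, y', p] (by
      simp [bc, nx.1.symm, nx.2.symm, ny.1.symm, ny.2.symm, ny'.1.symm, ny'.2.symm, xy.symm,
        xy'.symm, e, pb.symm, pc.symm, py.symm, py'.symm, hp.ne])
    have hR : OK b c ([x, y] ++ y' :: p :: R) := hR
    rw [free C hx hy h hR, l3_link C hp hx hy hy' hR]
    exact free C hx hy' (hR.perm (pcnt fun f => by simp <;> ring)) h'
  obtain ⟨p, hp, ep⟩ := exists_parent C.conn nx.1
  obtain ⟨q, hq, eq⟩ := exists_parent C.conn nx.2
  by_cases e1 : p ≠ y ∧ p ≠ y'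
  · exact l3 p hp e1.1 e1.2
  by_cases e2 : q ≠ y ∧ q ≠ y'
  · exact l3 q hq e2.1 e2.2
  have a1 := dist_adj C.conn hp c
  have a2 := dist_adj C.conn hq b
  have a3 := dist_adj C.conn C.adj.symm p
  have a4 := dist_adj C.conn C.adj q
  have b1 := dc G x c
  have b2 := dc G p c
  have b3 := dc G x b
  have b4 := dc G q b
  obtain ⟨R, hR⟩ := exists_rest [b, c, x, y, y'] (by
    simp [bc, nx.1.symm, nx.2.symm, ny.1.symm, ny.2.symm, ny'.1.symm, ny'.2.symm, xy.symm,
      xy'.symm, e])
  have hR : OK b c ([x, y] ++ y' :: R) := hR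
  have hR' : OK b c ([x, y'] ++ y :: R) := hR.perm (pcnt fun f => by simp <;> ring)
  rw [free C hx hy h hR, free C hx hy' h' hR']
  have hx' := hx
  simp only [Z] at hx' hy hy'
  rcases not_and_or.1 e1 with f1 | f1 <;> rcases not_and_or.1 e2 with f2 | f2 <;>
    rw [not_not] at f1 f2 <;> rw [f1] at hp ep a1 a3 b2 <;> rw [f2] at hq eq a2 a4 b4
  · omega
  · exact m_link C hp hq hx ep (by omega) (by omega) (by omega) hR
  · exact (m_link C hp hq hx ep (by omega) (by omega) (by omega) hR').symm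
  · omega

end

end Pool.Agent.Lib.MP_08a7f3_co
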