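import Mathlib
import Pool.Agent.Lib.MP_08a7f3_co.Defs

namespace Pool.Agent.Lib.MP_08a7f3_co

variable {V : Type} (G : SimpleGraph V)

noncomputable def cl (l : List V) : ℕ := (List.zipWith G.dist l (l.rotate 1)).sum

/-- length of the path from `x` through `T` to `y` -/
noncomputable def seg : V → List V → V → ℕ
  | x, [], y => G.dist x y
  | x, a :: T, y => G.dist x a + seg a T y

lemma zip_seg (x : V) (T : List V) (y : V) :
    (List.zipWith G.dist (x :: T) (T ++ [y])).sum = seg G x T y := by
  induction T generalizing x with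
  | nil => simp [seg]
  | cons a T ih => simp only [List.cons_append, List.zipWith_cons_cons, List.sum_cons, seg, ← ih a]

lemma cl_cons (x : V) (T : List V) : cl G (x :: T) = seg G x T x := by
  rw [cl, ← zip_seg]; simp [List.rotate_cons_succ]

lemma seg_append (x : V) (S : List V) (c : V) (T : List V) (y : V) :
    seg G x (S ++ c :: T) y = seg G x S c + seg G c T y := by
  induction S generalizing x with
  | nil => simp [seg]
  | cons a S ih => simp only [List.cons_append, seg, ih, add_assoc]

lemma seg_reverse (x : V) (T : List V) (y : V) : seg G x T.reverse y = seg G y T x := by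
  induction T generalizing y with
  | nil => simp [seg, SimpleGraph.dist_comm]
  | cons a T ih => rw [List.reverse_cons, seg_append, ih]; simp [seg, SimpleGraph.dist_comm, add_comm]

lemma cl_append_comm (S T : List V) : cl G (S ++ T) = cl G (T ++ S) := by
  rcases S with _ | ⟨a, S⟩
  · simp
  rcases T with _ | ⟨b, T⟩
  · simp
  simp only [List.cons_append, cl_cons, seg_append, add_comm]

lemma cl_two (b : V) (X : List V) (c : V) (Y : List V) :
    cl G (b :: X ++ c :: Y) = seg G b X c + seg G c Y b := by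
  rw [List.cons_append, cl_cons, seg_append]

variable {G}

lemma dist_adj (hG : G.Connected) {b c : V} (h : G.Adj b c) (a : V) :
    G.dist b a ≤ G.dist c a + 1 := by
  have := hG.dist_triangle (u := b) (v := c) (w := a)
  rw [SimpleGraph.dist_eq_one_iff_adj.2 h] at this
  omega

lemma seg_left (hG : G.Connected) {b c : V} (h : G.Adj b c) (T : List V) (y : V) :
    seg G b T y ≤ seg G c T y + 1 := by
  rcases T with _ | ⟨a, T⟩
  · exact dist_adj hG h y
  · have := dist_adj hG h a
    simp only [seg]; omega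

lemma seg_swap (hG : G.Connected) {b c : V} (h : G.Adj b c) (T : List V) :
    seg G b T c ≤ seg G c T b + 2 := by
  have h1 := seg_left hG h T c
  have h2 := seg_left hG h.symm T.reverse c
  rw [seg_reverse, seg_reverse] at h2
  omega

def Ord (l : List V) : Prop := l.Nodup ∧ ∀ v, v ∈ l

lemma Ord.perm {l l' : List V} (h : Ord l) (p : l.Perm l') : Ord l' :=
  ⟨p.nodup_iff.1 h.1, fun v => p.mem_iff.1 (h.2 v)⟩

lemma Ord.map {l : List V} (h : Ord l) (π : Equiv.Perm V) : Ord (l.map π) :=
  ⟨h.1.map π.injective, fun v => List.mem_map.2 ⟨π.symm v, h.2 _, by simp⟩⟩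

lemma Ord.mem {l : List V} (h : Ord l) : cl G l ∈ spectrum G := ⟨l, h.1, h.2, rfl⟩

lemma Ord.split {l : List V} (h : Ord l) {b c : V} (hbc : b ≠ c) :
    ∃ S T X Y : List V, l = S ++ T ∧ T ++ S = b :: X ++ c :: Y := by
  obtain ⟨S, T, rfl⟩ := List.append_of_mem (h.2 b)
  have hc : c ∈ T ++ S := by
    have := h.2 c
    simp only [List.mem_append, List.mem_cons] at this ⊢
    tauto
  obtain ⟨X, Y, e⟩ := List.append_of_mem hc
  exact ⟨S, b :: T, X, Y, rfl, by simp [e]⟩

lemma map_swap [DecidableEq V] {b c : V} {X Y : List V} (h : (b :: X ++ c :: Y).Nodup) :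
    (b :: X ++ c :: Y).map (Equiv.swap b c) = c :: X ++ b :: Y := by
  have f : ∀ Z : List V, b ∉ Z → c ∉ Z → Z.map (Equiv.swap b c) = Z := by
    intro Z h1 h2
    conv_rhs => rw [← List.map_id Z]
    apply List.map_congr_left
    intro a ha
    exact Equiv.swap_apply_of_ne_of_ne (fun e => h1 (e ▸ ha)) (fun e => h2 (e ▸ ha))
  simp only [List.cons_append, List.nodup_cons, List.mem_append, List.mem_cons, not_or,
    List.nodup_append] at h
  obtain ⟨⟨h1, -, h2⟩, -, ⟨h3, -⟩, h4⟩ := h
  simp only [List.cons_append, List.map_cons, List.map_append, Equiv.swap_apply_left,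
    Equiv.swap_apply_right, f X h1 (fun hc => h4 c hc c (Or.inl rfl) rfl), f Y h2 h3]

/-- a property of orderings that survives swaps along edges survives all relabellings -/
lemma all_perm [Finite V] [DecidableEq V] (hG : G.Connected) (P : List V → Prop)
    (hP : ∀ b c, G.Adj b c → ∀ l, Ord l → P l → P (l.map (Equiv.swap b c)))
    (π : Equiv.Perm V) : ∀ l, Ord l → P l → P (l.map π) := by
  have mul : ∀ π ρ : Equiv.Perm V, (∀ l, Ord l → P l → P (l.map π)) →
      (∀ l, Ord l → P l → P (l.map ρ)) → ∀ l, Ord l → P l → P (l.map (π * ρ)) := by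
    intro π ρ h1 h2 l hl h
    have := h1 _ (hl.map ρ) (h2 l hl h)
    rwa [List.map_map] at this
  have sw : ∀ u w : V, ∀ l, Ord l → P l → P (l.map (Equiv.swap u w)) := by
    intro u w
    obtain ⟨p⟩ := hG u w
    induction p with
    | nil => intro l _ h; simpa using h
    | @cons u v w huv p ih =>
      by_cases e : w = u
      · subst e; intro l _ h; simpa using h
      by_cases e' : w = v
      · subst e'; exact hP _ _ huv
      rw [← Equiv.swap_mul_swap_mul_swap e' e, Equiv.swap_comm w v]
      exact mul _ _ (mul _ _ (hP _ _ huv.symm) ih) (hP _ _ huv.symm)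
  induction π using Equiv.Perm.swap_induction_on with
  | one => intro l _ h; simpa using h
  | swap_mul f x y _ ih => exact mul _ _ (sw x y) ih

lemma exists_perm [DecidableEq V] {l l' : List V} (h : Ord l) (h' : Ord l') :
    ∃ π : Equiv.Perm V, l.map π = l' := by
  have e : l.length = l'.length :=
    ((List.perm_ext_iff_of_nodup h.1 h'.1).2 fun v => by simp [h.2 v, h'.2 v]).length_eq
  refine ⟨((List.Nodup.getEquivOfForallMemList l h.1 h.2).symm.trans (finCongr e)).trans
    (List.Nodup.getEquivOfForallMemList l' h'.1 h'.2), ?_⟩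
  apply List.ext_getElem (by simp [e])
  intro i h1 h2
  simp [List.Nodup.idxOf_getElem h.1]

theorem gap [Finite V] (hG : G.Connected) {x y t : ℕ} (hx : x ∈ spectrum G) (hy : y ∈ spectrum G)
    (h1 : x ≤ t) (h2 : t < y) : t ∈ spectrum G ∨ t + 1 ∈ spectrum G := by
  classical
  by_contra hc
  rw [not_or] at hc
  obtain ⟨l, l1, l2, rfl⟩ := hx
  obtain ⟨l', l1', l2', rfl⟩ := hy
  obtain ⟨π, rfl⟩ := exists_perm (l := l) (l' := l') ⟨l1, l2⟩ ⟨l1', l2'⟩
  have key : ∀ m m' : List V, Ord m' → cl G m ≤ t → Ord m → cl G m' ≤ cl G m + 2 → cl G m' ≤ t := by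
    intro m m' h' ht h hle
    have a1 : cl G m ≠ t := fun e => hc.1 (e ▸ h.mem)
    have a2 : cl G m' ≠ t + 1 := fun e => hc.2 (e ▸ h'.mem)
    omega
  have := all_perm hG (fun l => cl G l ≤ t) ?_ π l ⟨l1, l2⟩ h1
  · exact absurd this (not_le.2 h2)
  intro b c hbc m hm ht
  obtain ⟨S, T, X, Y, rfl, e⟩ := hm.split hbc.ne
  have o1 : Ord (b :: X ++ c :: Y) := e ▸ hm.perm List.perm_append_comm
  have o2 : Ord (b :: X.reverse ++ c :: Y) :=
    o1.perm (((List.reverse_perm X).symm.cons b).append_right _)
  have o3 := o1.map (Equiv.swap b c)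
  rw [List.map_append, cl_append_comm, ← List.map_append, e]
  rw [cl_append_comm, e] at ht
  refine key _ _ o3 (key _ _ o2 ht o1 ?_) o2 ?_
  · have := seg_swap hG hbc.symm X
    rw [cl_two, cl_two, seg_reverse]; omega
  · have := seg_swap hG hbc Y
    rw [map_swap o1.1, cl_two, cl_two, seg_reverse]; omega

lemma seg_parity (hG : G.Connected) (C : G.Coloring Bool) (x : V) (T : List V) (y : V) :
    Even (seg G x T y) ↔ (C x ↔ C y) := by
  have d : ∀ u v, Even (G.dist u v) ↔ (C u ↔ C v) := fun u v => by
    obtain ⟨p, hp⟩ := hG.exists_walk_length_eq_dist u v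
    rw [← hp]; exact C.even_length_iff_congr p
  induction T generalizing x with
  | nil => exact d x y
  | cons a T ih =>
    have h1 := ih a
    have h2 := d x a
    change Even (G.dist x a + seg G a T y) ↔ _
    rw [Nat.even_add]; tauto

theorem even_of_bip (hG : G.Connected) (hb : G.Colorable 2) {x : ℕ} (hx : x ∈ spectrum G) :
    Even x := by
  obtain ⟨C⟩ := hb
  obtain ⟨l, -, -, rfl⟩ := hx
  rcases l with _ | ⟨a, T⟩
  · simp
  · change Even (cl G (a :: T))
    rw [cl_cons, seg_parity hG (G.recolorOfEquiv finTwoEquiv C)]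

end Pool.Agent.Lib.MP_08a7f3_co
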