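import Pool.Agent.Lib.MP_08a7f3_co.Parity

/-! The shape of a Hamiltonian spectrum. -/

namespace Pool.Agent.Lib.MP_08a7f3_co

variable {V : Type} {G : SimpleGraph V}

lemma spectrum_finite [Finite V] : (spectrum G).Finite := by
  have h : {l : List V | l.Nodup}.Finite := by
    classical
    have := Fintype.ofFinite V
    exact (List.finite_length_le V (Fintype.card V)).subset fun l hl => hl.length_le_card
  exact (h.image (cl G)).subset fun k ⟨l, h1, _, h3⟩ => ⟨l, h1, h3.symm⟩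

lemma spectrum_nonempty [Finite V] : (spectrum G).Nonempty := by
  obtain ⟨R, hR⟩ := exists_rest ([] : List V) List.nodup_nil
  exact ⟨_, hR.mem⟩

/-- a finite set with gaps at most two whose parity classes are intervals of step two -/
lemma shape_of {S : Set ℕ} (hf : S.Finite) (hn : S.Nonempty)
    (hg : ∀ x ∈ S, ∀ y ∈ S, ∀ t, x ≤ t → t < y → t ∈ S ∨ t + 1 ∈ S)
    (hp : ∀ x ∈ S, ∀ y ∈ S, ∀ t, x ≤ t → t ≤ y → x % 2 = t % 2 → y % 2 = t % 2 → t ∈ S) :
    ∃ a α β b : ℕ, a ≤ α ∧ α ≤ β ∧ β ≤ b ∧ a % 2 = α % 2 ∧ b % 2 = β % 2 ∧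
      S = {t | a ≤ t ∧ t ≤ b ∧ (t < α → t % 2 = α % 2) ∧ (β < t → t % 2 = β % 2)} := by
  obtain ⟨a, ha, ha'⟩ := Set.exists_min_image S id hf hn
  obtain ⟨b, hb, hb'⟩ := Set.exists_max_image S id hf hn
  simp only [id] at ha' hb'
  by_cases h : ∀ x ∈ S, x % 2 = a % 2
  · refine ⟨a, a, a, b, le_rfl, le_rfl, ha' b hb, rfl, h b hb, Set.ext fun t => ⟨fun ht => ?_, ?_⟩⟩
    · exact ⟨ha' t ht, hb' t ht, fun _ => h t ht, fun _ => h t ht⟩
    · rintro ⟨h1, h2, -, h4⟩
      have := h b hb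
      exact hp a ha b hb t h1 h2 (by omega) (by omega)
  push Not at h
  have n1 : {x ∈ S | x % 2 ≠ a % 2}.Nonempty := h
  have n2 : {x ∈ S | x % 2 ≠ b % 2}.Nonempty := by
    obtain ⟨x, hx, hx'⟩ := h
    by_cases e : a % 2 = b % 2
    · exact ⟨x, hx, e ▸ hx'⟩
    · exact ⟨a, ha, e⟩
  obtain ⟨p, ⟨hp1, hp2⟩, hp3⟩ :=
    Set.exists_min_image _ id (hf.subset (Set.sep_subset _ _)) n1
  obtain ⟨q, ⟨hq1, hq2⟩, hq3⟩ :=
    Set.exists_max_image _ id (hf.subset (Set.sep_subset _ _)) n2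
  simp only [id, Set.mem_ofPred_eq, and_imp] at hp3 hq3
  have a1 := ha' p hp1
  have a2 := hb' q hq1
  have a3 := ha' q hq1
  have a4 := hb' p hp1
  have p1 : p - 1 ∈ S := by
    by_cases e : p - 1 = a
    · exact e ▸ ha
    rcases hg a ha p hp1 (p - 2) (by omega) (by omega) with k | k
    · have := hp3 _ k (by omega); omega
    · rwa [show p - 2 + 1 = p - 1 by omega] at k
  have q1 : q + 1 ∈ S := by
    by_cases e : q + 1 = b
    · exact e ▸ hb
    rcases hg q hq1 b hb (q + 1) (by omega) (by omega) with k | k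
    · exact k
    · have := hq3 _ k (by omega); omega
  have pq : p - 1 ≤ q := by
    by_cases e : p % 2 = b % 2
    · exact hq3 _ p1 (by omega)
    · have := hq3 _ hp1 e; omega
  refine ⟨a, p - 1, q + 1, b, by omega, by omega, by omega, by omega, by omega,
    Set.ext fun t => ⟨fun ht => ⟨ha' t ht, hb' t ht, fun h1 => ?_, fun h1 => ?_⟩, ?_⟩⟩
  · by_contra h2
    have := hp3 t ht (by omega); omega
  · by_contra h2
    have := hq3 t ht (by omega); omega
  · rintro ⟨h1, h2, h3, h4⟩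
    by_cases e1 : t % 2 = a % 2 <;> by_cases e2 : t % 2 = b % 2
    · exact hp a ha b hb t h1 h2 e1.symm e2.symm
    · exact hp a ha q hq1 t h1 (by omega) e1.symm (by omega)
    · exact hp p hp1 b hb t (by omega) h2 (by omega) e2.symm
    · exact hp p hp1 q hq1 t (by omega) (by omega) (by omega) (by omega)

theorem shape [Finite V] (hG : G.Connected) :
    ∃ a α β b : ℕ, a ≤ α ∧ α ≤ β ∧ β ≤ b ∧ a % 2 = α % 2 ∧ b % 2 = β % 2 ∧
      spectrum G = {t | a ≤ t ∧ t ≤ b ∧ (t < α → t % 2 = α % 2) ∧ (β < t → t % 2 = β % 2)} :=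
  shape_of spectrum_finite spectrum_nonempty (fun _ hx _ hy _ h1 h2 => gap hG hx hy h1 h2)
    (fun _ hx _ hy _ h1 h2 h3 h4 => parity_interval hG hx hy h1 h2 h3 h4)

end Pool.Agent.Lib.MP_08a7f3_co
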