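import Pool.Agent.Lib.MP_08a7f3_co.Desc

/-! All quads with a toggle lie on one side of a missing value; each parity class of the
spectrum is an interval of step two. -/

namespace Pool.Agent.Lib.MP_08a7f3_co

variable {V : Type} {G : SimpleGraph V}

section
variable [Finite V] {t : ℕ} {b c : V}

def FLo (G : SimpleGraph V) (t : ℕ) (b c x : V) : Prop :=
  ∃ y J, ¬ Z G b c y ∧ OK b c ([x, y] ++ J) ∧ Lo G t b c [x, y] J

lemma F_iff (C : Ctx G t b c) {x y : V} (hx : Z G b c x) (hy : ¬ Z G b c y) {J : List V}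
    (h : OK b c ([x, y] ++ J)) : Lo G t b c [x, y] J ↔ FLo G t b c x :=
  ⟨fun l => ⟨y, J, hy, h, l⟩, fun ⟨_, _, hy', h', l⟩ => (ylink C hx hy hy' h h').2 l⟩

omit [Finite V] in
lemma Z_ne (C : Ctx G t b c) {x : V} (hx : Z G b c x) : x ≠ b ∧ x ≠ c := by
  have h1 := d1 C.adj
  have h2 := d1 C.adj.symm
  constructor <;> rintro rfl <;> simp only [Z, SimpleGraph.dist_self] at hx <;> omega

omit [Finite V] in
lemma F_adj (C : Ctx G t b c) {z z' : V} (h : ZA G b c z z') (l : FLo G t b c z) :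
    FLo G t b c z' := by
  classical
  obtain ⟨y, J, hy, o, l⟩ := l
  obtain ⟨ha, hz, hz'⟩ := h
  have n := Z_ne C hz
  have n' := Z_ne C hz'
  have sy : Equiv.swap z z' y = y :=
    Equiv.swap_apply_of_ne_of_ne (fun e => hy (e ▸ hz)) (fun e => hy (e ▸ hz'))
  have o' := o.map (Equiv.swap z z') (Equiv.swap_apply_of_ne_of_ne n.1.symm n'.1.symm)
    (Equiv.swap_apply_of_ne_of_ne n.2.symm n'.2.symm)
  have k := swap_link C o (by simpa using tog_zu C hz hy []) ha n n'
    (by simpa [sy] using tog_zu C hz' hy [])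
  simp only [List.map_cons, List.map_append, List.map_nil, Equiv.swap_apply_left, sy] at o' k
  exact ⟨y, _, hy, o', k.1 l⟩

omit [Finite V] in
lemma F_rt (C : Ctx G t b c) {z z' : V} (h : Relation.ReflTransGen (ZA G b c) z z') :
    FLo G t b c z ↔ FLo G t b c z' := by
  induction h with
  | refl => rfl
  | tail _ h ih => exact ih.trans ⟨F_adj C h, F_adj C ⟨h.1.symm, h.2.2, h.2.1⟩⟩

omit [Finite V] in
lemma hop_link' (C : Ctx G t b c) {M : List V} {r z x : V} (hr : G.Adj b r ∨ G.Adj c r)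
    (hU : ¬ Z G b c r) (hz : Z G b c z) (hx : Z G b c x) (h : OK b c (r :: (M ++ [z]) ++ [x])) :
    Lo G t b c (r :: (M ++ [z])) [x] ↔ Lo G t b c (M ++ [z]) [x, r] := by
  rcases hr with hr | hr
  · exact hop_link C hr hU hz hx h
  · rw [Lo_symm, Lo_symm b c]
    rw [Z_symm] at hU hz hx
    exact hop_link C.symm hr hU hz hx h.symm

lemma D_iff (C : Ctx G t b c) {x y : V} (hx : Z G b c x) (hy : ¬ Z G b c y) {M : List V}
    (h : OK b c (x :: (M ++ [y]))) : Lo G t b c (x :: (M ++ [y])) [] ↔ FLo G t b c x := by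
  rcases M with _ | ⟨v, M⟩
  · exact F_iff C hx hy (J := []) h
  have hv := h.ne (v := v) (by simp)
  have hvx : v ≠ x := by
    rintro rfl
    have := h.nodup
    simp at this
  obtain ⟨π, h1, h2, h3, h4, h5, h6, -, h8⟩ := descend C _ x y v le_rfl hx hy hvx hv.1 hv.2
  have o := h.map π h1 h2
  rw [h8 _ [] (by simpa using h), F_rt C h6]
  simp only [List.map_cons, List.map_append, List.map_nil, List.cons_append] at o ⊢
  generalize π x = x₁ at *
  generalize π y = y₁ at *
  generalize π v = r at *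
  generalize M.map π = N at *
  have T := tog_zu C h4 h5 (r :: N)
  by_cases hr : Z G b c r
  · have T1 := tog_zu C hr h5 N
    have c1 := cut_link' C (P := y₁ :: N.reverse) (R := [x₁]) h3 (o.perm (pcnt fun f => by simp <;> ring))
      (Or.inl (by simpa using (Tog_rev _ _ _).2 T1)) (by simpa using (Tog_rev _ _ _).2 T)
    have ny := o.ne (v := y₁) (by simp)
    obtain ⟨ρ, g1, g2, g3, -, g5, -, g7, g8⟩ :=
      descend C _ r y₁ y₁ le_rfl hr h5 (fun e => h5 (e ▸ hr)) ny.1 ny.2
    have k := g8 N [x₁] (o.perm (pcnt fun f => by simp <;> ring))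
    have o' := o.map ρ g1 g2
    simp only [List.map_cons, List.map_append, List.map_nil, g7 h5 _ hr, g7 h5 _ h4] at k o'
    have k2 := hop_link' C (M := (N.map ρ).reverse) g3 g5 hr h4 (o'.perm (pcnt fun f => by simp <;> ring))
    have k3 := F_iff C h4 g5 (J := (N.map ρ).reverse ++ [r]) (o'.perm (pcnt fun f => by simp <;> ring))
    rw [← k3, Lo_comm b c [x₁, ρ y₁], ← k2, ← Lo_revI b c (ρ y₁ :: _), ← Lo_revI]
    rw [← Lo_revI b c (r :: (N ++ [y₁]))] at k
    simp only [List.reverse_cons, List.reverse_append, List.reverse_nil, List.nil_append,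
      List.cons_append, List.append_assoc, List.reverse_reverse] at c1 k ⊢
    rw [← c1, k]
  · have c1 := cut_link' C (P := [x₁]) (R := N ++ [y₁]) h3 (o.perm (pcnt fun f => by simp <;> ring))
      (Or.inl (by simpa using tog_zu C h4 hr [])) (by simpa using T)
    simp only [List.cons_append, List.nil_append] at c1
    rw [← c1]
    exact F_iff C h4 hr o

lemma xlink (C : Ctx G t b c) {x x' : V} (hx : Z G b c x) (hx' : Z G b c x')
    (l : FLo G t b c x) : FLo G t b c x' := by
  classical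
  by_cases e : x = x'
  · exact e ▸ l
  obtain ⟨y, J, hy, o, -⟩ := id l
  have nx := Z_ne C hx
  have nx' := Z_ne C hx'
  have ny := o.ne (v := y) (by simp)
  have xy : y ≠ x := fun e => hy (e ▸ hx)
  have xy' : y ≠ x' := fun e => hy (e ▸ hx')
  obtain ⟨R, hR⟩ := exists_rest [b, c, x, x', y] (by
    simp [C.adj.ne, nx.1.symm, nx.2.symm, ny.1.symm, ny.2.symm, nx'.1.symm, nx'.2.symm, xy.symm,
      xy'.symm, e])
  have hR : OK b c (x :: x' :: y :: R) := hR
  obtain ⟨π, h1, h2, h3, -, h5, -, h7, -⟩ := descend C _ x y y le_rfl hx hy xy ny.1 ny.2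
  have o' := hR.map π h1 h2
  simp only [List.map_cons, h7 hy _ hx, h7 hy _ hx'] at o'
  generalize π y = r at *
  generalize R.map π = N at *
  have o1 : OK b c (x :: (N ++ [x'] ++ [r])) := o'.perm (pcnt fun f => by simp <;> ring)
  have o2 : OK b c (x' :: (N.reverse ++ [x] ++ [r])) := o'.perm (pcnt fun f => by simp <;> ring)
  rw [← D_iff C hx h5 o1] at l
  rw [← D_iff C hx' h5 o2]
  rcases h3 with h3 | h3
  · exact (p2_link C h3 h5 hx hx' o1).1 l
  · rw [Lo_symm] at l ⊢
    rw [Z_symm] at h5 hx hx'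
    exact (p2_link C.symm h3 h5 hx hx' o1.symm).1 l

def GLo (G : SimpleGraph V) (t : ℕ) (b c : V) : Prop := ∃ x, Z G b c x ∧ FLo G t b c x

lemma D_G (C : Ctx G t b c) {x y : V} (hx : Z G b c x) (hy : ¬ Z G b c y) {M : List V}
    (h : OK b c (x :: (M ++ [y]))) : Lo G t b c (x :: (M ++ [y])) [] ↔ GLo G t b c := by
  rw [D_iff C hx hy h]
  exact ⟨fun l => ⟨x, hx, l⟩, fun ⟨_, hx', l⟩ => xlink C hx' hx l⟩

lemma ZU_G (C : Ctx G t b c) {x y : V} (hx : Z G b c x) (hy : ¬ Z G b c y) {M J : List V}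
    (h : OK b c (x :: (M ++ [y]) ++ J)) : Lo G t b c (x :: (M ++ [y])) J ↔ GLo G t b c := by
  rcases J.eq_nil_or_concat' with rfl | ⟨J, v, rfl⟩
  · exact D_G C hx hy (by simpa using h)
  have hv := h.ne (v := v) (by simp)
  have hvx : v ≠ x := by
    rintro rfl
    have := h.nodup
    simp at this
  obtain ⟨π, h1, h2, h3, h4, h5, -, -, h8⟩ := descend C _ x y v le_rfl hx hy hvx hv.1 hv.2
  have o := h.map π h1 h2
  rw [h8 _ _ h]
  simp only [List.map_cons, List.map_append, List.map_nil] at o ⊢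
  generalize π x = x₁ at *
  generalize π y = y₁ at *
  generalize π v = r at *
  generalize M.map π = N at *
  generalize J.map π = P at *
  have T := tog_zu C h4 h5 N
  obtain ⟨p, Q, e⟩ : ∃ p Q, P ++ [r] = p :: Q := by
    rcases P with _ | ⟨p, P⟩
    · exact ⟨r, [], rfl⟩
    · exact ⟨p, P ++ [r], rfl⟩
  have e' : ∀ R, P ++ r :: R = p :: (Q ++ R) := fun R => by
    rw [← List.cons_append, ← e]; simp
  rw [Lo_comm]
  by_cases hp : Z G b c p
  · have o1 : OK b c (P ++ r :: (x₁ :: (N ++ [y₁]))) := o.perm (pcnt fun f => by simp <;> ring)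
    have T' := tog_zu C hp h5 (Q ++ x₁ :: N)
    rw [cut_link' C h3 o1 (Or.inr T) (by rw [e']; simpa using T'), e']
    rw [e'] at o1
    have := D_G C hp h5 (M := Q ++ x₁ :: N) (by simpa using o1)
    simpa using this
  · have o1 : OK b c (P ++ r :: (x₁ :: (N ++ [y₁])).reverse) := o.perm (pcnt fun f => by simp <;> ring)
    have T' := (Tog_rev _ _ _).2 (tog_zu C h4 hp (N ++ y₁ :: Q.reverse))
    rw [← Lo_revJ, cut_link' C h3 o1 (Or.inr ((Tog_rev _ _ _).2 T))
      (by rw [e']; simpa using T'), e', ← Lo_revI]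
    rw [e'] at o1
    have := D_G C h4 hp (M := N ++ y₁ :: Q.reverse) (o1.perm (pcnt fun f => by simp <;> ring))
    simpa using this

omit [Finite V] in
lemma tog_shape (C : Ctx G t b c) {I : List V} (hT : Tog G b c I) :
    ∃ x M y, I = x :: (M ++ [y]) ∧ (Z G b c x ↔ ¬ Z G b c y) := by
  rcases I with _ | ⟨x, I⟩
  · have := dc G b c
    simp only [Tog, w, seg] at hT; omega
  rcases I.eq_nil_or_concat' with rfl | ⟨M, y, rfl⟩
  · have := dc G b x
    have := dc G c x
    simp only [Tog, w, seg] at hT; omega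
  · exact ⟨x, M, y, rfl, (tog_iff C x M y).1 hT⟩

lemma tog_G (C : Ctx G t b c) {I J : List V} (h : OK b c (I ++ J)) (hT : Tog G b c I) :
    seg G b I c + seg G c J b < t ↔ GLo G t b c := by
  rw [← (side C h (Or.inl hT)).1]
  obtain ⟨x, M, y, rfl, e⟩ := tog_shape C hT
  by_cases hx : Z G b c x
  · exact ZU_G C hx (e.1 hx) h
  · have hy : Z G b c y := by_contra fun hy => hx (e.2 hy)
    rw [← Lo_revI]
    have := ZU_G C hy hx (M := M.reverse) (J := J) (h.perm (pcnt fun f => by simp <;> ring))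
    simpa using this

omit [Finite V] in
lemma GLo_symm (l : GLo G t b c) : GLo G t c b := by
  obtain ⟨x, hx, y, J, hy, o, l⟩ := l
  exact ⟨x, (Z_symm _ _ _).1 hx, y, J, fun h => hy ((Z_symm _ _ _).1 h), o.symm,
    (Lo_symm _ _ _ _).1 l⟩

omit [Finite V] in
lemma GLo_comm : GLo G t b c ↔ GLo G t c b := ⟨GLo_symm, GLo_symm⟩

/-- both types occur off the edge -/
def Act (G : SimpleGraph V) (b c : V) : Prop :=
  ∀ u, ∃ v, v ≠ b ∧ v ≠ c ∧ (Z G b c u ↔ ¬ Z G b c v)

omit [Finite V] in
lemma Act.symm (h : Act G b c) : Act G c b := fun u => by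
  obtain ⟨v, h1, h2, h3⟩ := h u
  exact ⟨v, h2, h1, by simpa only [Z_symm c b] using h3⟩

omit [Finite V] in
lemma tog_act (C : Ctx G t b c) {I J : List V} (h : OK b c (I ++ J)) (hT : Tog G b c I) :
    Act G b c := by
  obtain ⟨x, M, y, rfl, e⟩ := tog_shape C hT
  have nx := h.ne (v := x) (by simp)
  have ny := h.ne (v := y) (by simp)
  intro u
  by_cases hu : Z G b c u ↔ Z G b c x
  · exact ⟨y, ny.1, ny.2, hu.trans e⟩
  · exact ⟨x, nx.1, nx.2, by tauto⟩

/-- the form of `tog_G` used for explicit cycles -/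
lemma ends_G (C : Ctx G t b c) {x y : V} {M J : List V} (h : Ord (b :: c :: (x :: (M ++ [y]) ++ J)))
    (e : Z G b c x ↔ ¬ Z G b c y) :
    seg G b (x :: (M ++ [y])) c + seg G c J b < t ↔ GLo G t b c :=
  tog_G C h ((tog_iff C x M y).2 e)

lemma share {c' : V} (C : Ctx G t b c) (C' : Ctx G t b c') (A : Act G b c) (A' : Act G b c') :
    GLo G t b c ↔ GLo G t b c' := by
  classical
  by_cases e : c = c'
  · rw [e]
  have key : ∀ g g' R, Ord (b :: c :: c' :: g :: g' :: R) → (Z G b c c' ↔ ¬ Z G b c g) →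
      (Z G b c' c ↔ ¬ Z G b c' g') → (GLo G t b c ↔ GLo G t b c') := by
    intro g g' R o h h'
    have k1 := ends_G C (x := c') (y := g) (M := g' :: R) (J := []) (o.perm (pcnt fun f => by simp <;> ring)) h
    have k2 := ends_G C'.symm (x := g') (y := c) (M := R ++ [g]) (J := []) (o.perm (pcnt fun f => by simp <;> ring))
      (by rw [Z_symm c' b, Z_symm c' b, iff_not_comm]; exact h')
    rw [← k1, GLo_comm (b := b), ← k2]
    simp only [seg, seg_append, List.cons_append, List.append_assoc, List.nil_append]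
    omega
  obtain ⟨g, g1, g2, g3⟩ := A c'
  obtain ⟨g', g1', g2', g3'⟩ := A' c
  have n1 : c' ≠ g := by rintro rfl; exact iff_not_self g3
  have n2 : c ≠ g' := by rintro rfl; exact iff_not_self g3'
  by_cases e' : g = g'
  swap
  · obtain ⟨R, hR⟩ := exists_rest [b, c, c', g, g'] (by
      simp [C.adj.ne, C'.adj.ne, e, e', g1.symm, g2.symm, g1'.symm, g2'.symm, n1, n2])
    exact key g g' R hR g3 g3'
  subst e'
  obtain ⟨R, hR⟩ := exists_rest [b, c, c', g] (by
      simp [C.adj.ne, C'.adj.ne, e, g1.symm, g2.symm, n1])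
  rcases R with _ | ⟨v, R⟩
  · have k1 := ends_G C.symm (x := g) (y := c') (M := []) (J := []) (hR.perm (pcnt fun f => by simp <;> ring))
      (by rw [Z_symm c b, Z_symm c b, iff_not_comm]; exact g3)
    have k2 := ends_G C' (x := c) (y := g) (M := []) (J := []) (hR.perm (pcnt fun f => by simp <;> ring)) g3'
    rw [GLo_comm, ← k1, ← k2]
    simp only [seg, List.nil_append]
    omega
  by_cases hv : Z G b c c' ↔ ¬ Z G b c v
  · exact key v g R (hR.perm (pcnt fun f => by simp <;> ring)) hv g3'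
  have k1 := ends_G C (x := g) (y := v) (M := []) (J := c' :: R) (hR.perm (pcnt fun f => by simp <;> ring))
    (by clear key; tauto)
  have k2 := ends_G C' (x := g) (y := c) (M := [v]) (J := R) (hR.perm (pcnt fun f => by simp <;> ring))
    (by rw [iff_not_comm]; exact g3')
  rw [← k1, ← k2]
  simp only [seg, List.nil_append, List.cons_append]
  omega

lemma disj {b' c' : V} (C : Ctx G t b c) (C' : Ctx G t b' c') (A : Act G b c) (A' : Act G b' c')
    (n1 : b ≠ b') (n2 : b ≠ c') (n3 : c ≠ b') (n4 : c ≠ c') :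
    GLo G t b c ↔ GLo G t b' c' := by
  classical
  have lam : (Z G b c b' ↔ Z G b c c') ↔ (Z G b' c' b ↔ Z G b' c' c) := by
    have a1 := dist_adj C.conn C.adj b'
    have a2 := dist_adj C.conn C.adj.symm b'
    have a3 := dist_adj C.conn C.adj c'
    have a4 := dist_adj C.conn C.adj.symm c'
    have a5 := dist_adj C.conn C'.adj b
    have a6 := dist_adj C.conn C'.adj.symm b
    have a7 := dist_adj C.conn C'.adj c
    have a8 := dist_adj C.conn C'.adj.symm c
    have b1 := dc G b b'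
    have b2 := dc G b c'
    have b3 := dc G c b'
    have b4 := dc G c c'
    simp only [Z]
    omega
  by_cases hl : Z G b c b' ↔ Z G b c c'
  swap
  · obtain ⟨R, hR⟩ := exists_rest [b, c, b', c'] (by simp [C.adj.ne, C'.adj.ne, n1, n2, n3, n4])
    have k1 := ends_G C.symm (x := c') (y := b') (M := R) (J := []) (hR.perm (pcnt fun f => by simp <;> ring))
      (by rw [Z_symm c b, Z_symm c b]; clear lam; tauto)
    have hl' := fun h => hl (lam.2 h)
    have k2 := ends_G C' (x := b) (y := c) (M := []) (J := R) (hR.perm (pcnt fun f => by simp <;> ring))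
      (by clear lam k1; tauto)
    rw [GLo_comm, ← k1, ← k2]
    simp only [seg, seg_append, List.nil_append]
    omega
  have hl' := lam.1 hl
  clear lam
  obtain ⟨g, g1, g2, g3⟩ := A b'
  obtain ⟨g', g1', g2', g3'⟩ := A' b
  have m1 : b' ≠ g := by rintro rfl; exact iff_not_self g3
  have m2 : c' ≠ g := by rintro rfl; exact iff_not_self (hl.symm.trans g3)
  have m3 : b ≠ g' := by rintro rfl; exact iff_not_self g3'
  have m4 : c ≠ g' := by rintro rfl; exact iff_not_self (hl'.symm.trans g3')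
  by_cases e : g = g'
  · subst e
    obtain ⟨R, hR⟩ := exists_rest [b, c, b', c', g] (by
      simp [C.adj.ne, C'.adj.ne, n1, n2, n3, n4, m1, m2, m3, m4])
    have k1 := ends_G C (x := g) (y := b') (M := []) (J := R ++ [c']) (hR.perm (pcnt fun f => by simp <;> ring))
      (by rw [iff_not_comm]; exact g3)
    have k2 := ends_G C'.symm (x := b) (y := g) (M := []) (J := c :: R) (hR.perm (pcnt fun f => by simp <;> ring))
      (by rw [Z_symm c' b', Z_symm c' b']; exact g3')
    rw [← k1, GLo_comm (b := b'), ← k2]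
    simp only [seg, seg_append, List.nil_append]
    omega
  · obtain ⟨R, hR⟩ := exists_rest [b, c, b', c', g, g'] (by
      simp [C.adj.ne, C'.adj.ne, n1, n2, n3, n4, m1, m2, m3, m4, e, g1.symm, g2.symm, g1'.symm,
        g2'.symm])
    have k1 := ends_G C.symm (x := b') (y := g) (M := c' :: g' :: R) (J := [])
      (hR.perm (pcnt fun f => by simp <;> ring)) (by rw [Z_symm c b, Z_symm c b]; exact g3)
    have k2 := ends_G C'.symm (x := g') (y := c) (M := R ++ [g, b]) (J := [])
      (hR.perm (pcnt fun f => by simp <;> ring))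
      (by rw [Z_symm c' b', Z_symm c' b', iff_not_comm]; exact hl'.symm.trans g3')
    rw [GLo_comm, ← k1, GLo_comm (b := b'), ← k2]
    simp only [seg, seg_append, List.cons_append, List.append_assoc, List.nil_append]
    omega

lemma edges {b' c' : V} (C : Ctx G t b c) (C' : Ctx G t b' c') (A : Act G b c)
    (A' : Act G b' c') : GLo G t b c ↔ GLo G t b' c' := by
  by_cases n1 : b = b'
  · subst n1; exact share C C' A A'
  by_cases n2 : b = c'
  · subst n2; exact (share C C'.symm A A'.symm).trans GLo_comm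
  by_cases n3 : c = b'
  · subst n3; exact GLo_comm.trans (share C.symm C' A.symm A')
  by_cases n4 : c = c'
  · subst n4; exact (GLo_comm.trans (share C.symm C'.symm A.symm A'.symm)).trans GLo_comm
  exact disj C C' A A' n1 n2 n3 n4

end

/-- from an ordering of the parity of `t` one reaches a toggle on the same side of `t`,
or all orderings are on that side -/
lemma reach [Finite V] (hG : G.Connected) {t : ℕ} (ht : t ∉ spectrum G) {l l' : List V}
    (o : Ord l) (o' : Ord l') (hp : cl G l % 2 = t % 2) (hs : ¬ (cl G l < t ↔ cl G l' < t)) :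
    ∃ b c, G.Adj b c ∧ Act G b c ∧ (GLo G t b c ↔ cl G l < t) := by
  classical
  by_contra hc
  obtain ⟨π, rfl⟩ := exists_perm o o'
  refine hs (all_perm hG (fun m => cl G m % 2 = t % 2 ∧ (cl G l < t ↔ cl G m < t)) ?_ π l o
    ⟨hp, Iff.rfl⟩).2
  rintro b c hbc m hm ⟨h1, h2⟩
  refine ⟨?_, h2.trans (fact1 hG ht hbc hm h1)⟩
  obtain ⟨S, T, X, Y, rfl, e⟩ := hm.split hbc.ne
  have o1 : Ord (b :: X ++ c :: Y) := e ▸ hm.perm List.perm_append_comm
  have C : Ctx G t b c := ⟨hG, ht, hbc⟩
  have o2 : OK b c (X ++ Y) := Ord.perm o1 (pcnt fun f => by simp <;> ring)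
  have o3 : OK b c (Y ++ X) := Ord.perm o1 (pcnt fun f => by simp <;> ring)
  rw [List.map_append, cl_append_comm, ← List.map_append, e, map_swap o1.1, cl_two]
  rw [cl_append_comm, e, cl_two] at h1 h2
  have tX : ¬ Tog G b c X := fun h =>
    hc ⟨b, c, hbc, tog_act C o2 h, (tog_G C o2 h).symm.trans h2.symm⟩
  have tY : ¬ Tog G b c Y := fun h => by
    refine hc ⟨b, c, hbc, tog_act C o3 h, ?_⟩
    have k := tog_G C.symm o3.symm ((Tog_symm _ _ _).1 h)
    rw [GLo_comm, ← k, h2, add_comm]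
  simp only [Tog, w] at tX tY
  omega

theorem parity_interval [Finite V] (hG : G.Connected) {x y t : ℕ} (hx : x ∈ spectrum G)
    (hy : y ∈ spectrum G) (h1 : x ≤ t) (h2 : t ≤ y) (p1 : x % 2 = t % 2) (p2 : y % 2 = t % 2) :
    t ∈ spectrum G := by
  by_contra ht
  have n1 : x ≠ t := fun e => ht (e ▸ hx)
  obtain ⟨l, l1, l2, rfl⟩ := hx
  obtain ⟨l', l1', l2', rfl⟩ := hy
  change cl G l ≤ t at h1
  change t ≤ cl G l' at h2
  change cl G l ≠ t at n1
  have s : ¬ (cl G l < t ↔ cl G l' < t) := by omega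
  obtain ⟨b, c, a, A, k⟩ := reach hG ht ⟨l1, l2⟩ ⟨l1', l2'⟩ p1 s
  obtain ⟨b', c', a', A', k'⟩ := reach hG ht ⟨l1', l2'⟩ ⟨l1, l2⟩ p2 (fun h => s h.symm)
  exact s (k.symm.trans ((edges ⟨hG, ht, a⟩ ⟨hG, ht, a'⟩ A A').trans k'))

end Pool.Agent.Lib.MP_08a7f3_co
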