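import Pool.Agent.Lib.MP_08a7f3_co.Gap

/-! Quads of an edge and the elementary safe links. -/

namespace Pool.Agent.Lib.MP_08a7f3_co

variable {V : Type} {G : SimpleGraph V}

/-- the two lengths of the arc `I` between `b` and `c`, added -/
noncomputable def w (G : SimpleGraph V) (b c : V) (I : List V) : ℕ := seg G b I c + seg G c I b

def OK (b c : V) (L : List V) : Prop := Ord (b :: c :: L)

def Tog (G : SimpleGraph V) (b c : V) (I : List V) : Prop := w G b c I % 2 = 1

def Lo (G : SimpleGraph V) (t : ℕ) (b c : V) (I J : List V) : Prop := w G b c I + w G b c J < 2 * t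

def Z (G : SimpleGraph V) (b c v : V) : Prop := G.dist b v = G.dist c v

structure Ctx (G : SimpleGraph V) (t : ℕ) (b c : V) : Prop where
  conn : G.Connected
  miss : t ∉ spectrum G
  adj : G.Adj b c

lemma pcnt {l l' : List V} (h : ∀ f : V → ℕ, (l.map f).sum = (l'.map f).sum) : l.Perm l' := by
  classical
  have k : ∀ (a : V) (m : List V), m.count a = (m.map fun v => if v = a then 1 else 0).sum := by
    intro a m
    induction m with
    | nil => rfl
    | cons v m ih => simp [List.count_cons, ih, add_comm]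
  rw [List.perm_iff_count]
  intro a
  rw [k, k, h]

lemma w_comm (b c : V) (I : List V) : w G b c I = w G c b I := by simp only [w, add_comm]

lemma w_reverse (b c : V) (I : List V) : w G b c I.reverse = w G b c I := by
  simp only [w, seg_reverse, add_comm]

lemma Ctx.symm {t : ℕ} {b c : V} (h : Ctx G t b c) : Ctx G t c b := ⟨h.conn, h.miss, h.adj.symm⟩

lemma OK.perm {b c : V} {L L' : List V} (h : OK b c L) (p : L.Perm L') : OK b c L' :=
  Ord.perm h ((p.cons c).cons b)

lemma OK.symm {b c : V} {L : List V} (h : OK b c L) : OK c b L :=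
  Ord.perm h (List.Perm.swap _ _ _)

lemma OK.ne {b c : V} {L : List V} (h : OK b c L) {v : V} (hv : v ∈ L) : v ≠ b ∧ v ≠ c := by
  have := h.1
  simp only [List.nodup_cons, List.mem_cons, not_or] at this
  exact ⟨fun e => this.1.2 (e ▸ hv), fun e => this.2.1 (e ▸ hv)⟩

lemma OK.nodup {b c : V} {L : List V} (h : OK b c L) : L.Nodup := by
  have := h.1
  simp only [List.nodup_cons] at this
  exact this.2.2

lemma OK.map {b c : V} {L : List V} (h : OK b c L) (π : Equiv.Perm V) (hb : π b = b)
    (hc : π c = c) : OK b c (L.map π) := by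
  have := Ord.map h π
  simpa only [OK, List.map_cons, hb, hc] using this

lemma Ord.perm_of {l l' : List V} (h : Ord l) (h' : Ord l') : l.Perm l' :=
  (List.perm_ext_iff_of_nodup h.1 h'.1).2 fun v => by simp [h.2 v, h'.2 v]

lemma OK.cancel {b c : V} {A J J' : List V} (h : OK b c (A ++ J)) (h' : OK b c (A ++ J')) :
    J.Perm J' :=
  (List.perm_append_left_iff A).1 (Ord.perm_of h h').cons_inv.cons_inv

lemma exists_rest [Finite V] (l : List V) (hl : l.Nodup) : ∃ R, Ord (l ++ R) := by
  classical
  have := Fintype.ofFinite V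
  refine ⟨(Finset.univ \ l.toFinset).toList, ?_, fun v => ?_⟩
  · rw [List.nodup_append]
    refine ⟨hl, Finset.nodup_toList _, fun a ha b hb e => ?_⟩
    subst e
    simp [ha] at hb
  · by_cases h : v ∈ l <;> simp [h]

lemma Lo_comm {t : ℕ} (b c : V) (I J : List V) : Lo G t b c I J ↔ Lo G t b c J I := by
  simp only [Lo, add_comm]

lemma Lo_symm {t : ℕ} (b c : V) (I J : List V) : Lo G t b c I J ↔ Lo G t c b I J := by
  simp only [Lo, w_comm b c]

lemma Lo_revI {t : ℕ} (b c : V) (I J : List V) : Lo G t b c I.reverse J ↔ Lo G t b c I J := by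
  simp only [Lo, w_reverse]

lemma Lo_revJ {t : ℕ} (b c : V) (I J : List V) : Lo G t b c I J.reverse ↔ Lo G t b c I J := by
  simp only [Lo, w_reverse]

lemma Tog_symm (b c : V) (I : List V) : Tog G b c I ↔ Tog G c b I := by
  simp only [Tog, w_comm b c]

lemma Tog_rev (b c : V) (I : List V) : Tog G b c I.reverse ↔ Tog G b c I := by
  simp only [Tog, w_reverse]

lemma Z_symm (b c v : V) : Z G b c v ↔ Z G c b v := eq_comm

lemma dc (G : SimpleGraph V) (u v : V) : G.dist u v = G.dist v u := SimpleGraph.dist_comm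

lemma seg_right (hG : G.Connected) {b c : V} (h : G.Adj b c) (T : List V) (y : V) :
    seg G y T b ≤ seg G y T c + 1 := by
  have := seg_left hG h T.reverse y
  rwa [seg_reverse, seg_reverse] at this

lemma d1 {u v : V} (h : G.Adj u v) : G.dist u v = 1 := SimpleGraph.dist_eq_one_iff_adj.2 h

lemma dpos (hG : G.Connected) {u v : V} (h : u ≠ v) : 1 ≤ G.dist u v :=
  hG.pos_dist_of_ne h

section
variable {t : ℕ} {b c : V}

lemma val_ne (C : Ctx G t b c) {I J : List V} (h : OK b c (I ++ J)) :
    seg G b I c + seg G c J b ≠ t := by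
  have o : Ord (b :: I ++ c :: J) := Ord.perm h (pcnt fun f => by simp <;> ring)
  rw [← cl_two]
  exact fun e => C.miss (e ▸ o.mem)

/-- the four values of a quad -/
lemma quad (C : Ctx G t b c) {I J : List V} (h : OK b c (I ++ J)) :
    seg G b I c + seg G c J b ≠ t ∧ seg G c I b + seg G c J b ≠ t ∧
    seg G b I c + seg G b J c ≠ t ∧ seg G c I b + seg G b J c ≠ t ∧
    seg G b I c ≤ seg G c I b + 2 ∧ seg G c I b ≤ seg G b I c + 2 ∧
    seg G b J c ≤ seg G c J b + 2 ∧ seg G c J b ≤ seg G b J c + 2 := by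
  refine ⟨val_ne C h, ?_, ?_, ?_, seg_swap C.conn C.adj _, seg_swap C.conn C.adj.symm _,
    seg_swap C.conn C.adj _, seg_swap C.conn C.adj.symm _⟩
  · have := val_ne C (I := I.reverse) (J := J) (h.perm (pcnt fun f => by simp <;> ring))
    rwa [seg_reverse] at this
  · have := val_ne C (I := I) (J := J.reverse) (h.perm (pcnt fun f => by simp <;> ring))
    rwa [seg_reverse] at this
  · have := val_ne C.symm (I := I) (J := J) h.symm
    exact this

lemma side (C : Ctx G t b c) {I J : List V} (h : OK b c (I ++ J))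
    (hT : Tog G b c I ∨ Tog G b c J) :
    (Lo G t b c I J ↔ seg G b I c + seg G c J b < t) ∧
    (Lo G t b c I J ↔ seg G c I b + seg G c J b < t) ∧
    (Lo G t b c I J ↔ seg G b I c + seg G b J c < t) ∧
    (Lo G t b c I J ↔ seg G c I b + seg G b J c < t) := by
  have := quad C h
  simp only [Lo, Tog, w] at *
  omega

lemma tog_iff (C : Ctx G t b c) (x : V) (M : List V) (y : V) :
    Tog G b c (x :: (M ++ [y])) ↔ (Z G b c x ↔ ¬ Z G b c y) := by
  have h1 := dist_adj C.conn C.adj x
  have h2 := dist_adj C.conn C.adj.symm x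
  have h3 := dist_adj C.conn C.adj y
  have h4 := dist_adj C.conn C.adj.symm y
  have h5 := dc G y b
  have h6 := dc G y c
  simp only [Tog, w, Z, seg, seg_append]
  omega

lemma fact1 [DecidableEq V] (hG : G.Connected) (ht : t ∉ spectrum G) {u v : V} (huv : G.Adj u v)
    {l : List V} (hl : Ord l) (hp : cl G l % 2 = t % 2) :
    cl G l < t ↔ cl G (l.map (Equiv.swap u v)) < t := by
  obtain ⟨S, T, X, Y, rfl, e⟩ := hl.split huv.ne
  have o1 : Ord (u :: X ++ v :: Y) := e ▸ hl.perm List.perm_append_comm
  rw [List.map_append, cl_append_comm G (S.map _), ← List.map_append, e, map_swap o1.1]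
  rw [cl_append_comm, e] at hp ⊢
  have := quad (I := X) (J := Y) ⟨hG, ht, huv⟩ (Ord.perm o1 (pcnt fun f => by simp <;> ring))
  rw [cl_two] at hp ⊢
  rw [cl_two]
  omega

/-- swap along an edge off `bc` -/
lemma swap_link [DecidableEq V] (C : Ctx G t b c) {I J : List V} (h : OK b c (I ++ J))
    (hT : Tog G b c I) {u v : V} (huv : G.Adj u v) (hu : u ≠ b ∧ u ≠ c) (hv : v ≠ b ∧ v ≠ c)
    (hT' : Tog G b c (I.map (Equiv.swap u v))) :
    Lo G t b c I J ↔ Lo G t b c (I.map (Equiv.swap u v)) (J.map (Equiv.swap u v)) := by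
  have hb : Equiv.swap u v b = b := Equiv.swap_apply_of_ne_of_ne hu.1.symm hv.1.symm
  have hc : Equiv.swap u v c = c := Equiv.swap_apply_of_ne_of_ne hu.2.symm hv.2.symm
  have h' := h.map _ hb hc
  rw [List.map_append] at h'
  have s := side C h (Or.inl hT)
  have s' := side C h' (Or.inl hT')
  have o1 : Ord (b :: I ++ c :: J) := Ord.perm h (pcnt fun f => by simp <;> ring)
  have o2 : Ord (b :: I.reverse ++ c :: J) := Ord.perm h (pcnt fun f => by simp <;> ring)
  have f1 := fact1 C.conn C.miss huv o1
  have f2 := fact1 C.conn C.miss huv o2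
  simp only [List.map_append, List.map_cons, hb, hc, List.map_reverse, cl_two, seg_reverse]
    at f1 f2
  simp only [Tog, w] at hT
  by_cases hp : (seg G b I c + seg G c J b) % 2 = t % 2
  · rw [s.1, s'.1]; exact f1 hp
  · rw [s.2.1, s'.2.1]; exact f2 (by omega)

/-- cut or join at a neighbour `r` of `b` -/
lemma cut_link (C : Ctx G t b c) {P R : List V} {r : V} (hr : G.Adj b r)
    (h : OK b c (P ++ r :: R)) (hT : Tog G b c (P ++ [r]) ∨ Tog G b c R)
    (hT' : Tog G b c (P ++ r :: R)) :
    Lo G t b c (P ++ [r]) R ↔ Lo G t b c (P ++ r :: R) [] := by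
  rcases R with _ | ⟨ρ, R⟩
  · rfl
  have q := quad C (I := P ++ [r]) (J := ρ :: R) (h.perm (pcnt fun f => by simp <;> ring))
  have q' := quad C (I := P ++ r :: ρ :: R) (J := []) (h.perm (pcnt fun f => by simp <;> ring))
  have hrc : r ≠ c := (h.ne (v := r) (by simp)).2
  have a1 := seg_left C.conn C.adj P r
  have a2 := seg_left C.conn C.adj.symm P r
  have a3 := seg_right C.conn C.adj R ρ
  have a4 := seg_right C.conn C.adj.symm R ρ
  have a5 := dist_adj C.conn hr ρ
  have a6 := dist_adj C.conn hr.symm ρ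
  have a7 := dist_adj C.conn hr.symm c
  have a8 := dpos C.conn hrc
  have a9 := d1 C.adj
  have a10 := d1 C.adj.symm
  have a11 := d1 hr.symm
  simp only [Lo, Tog, w, seg, seg_append] at *
  omega

/-- hop of a neighbour `r` of `b` of type `U` -/
lemma hop_link (C : Ctx G t b c) {M : List V} {r z x : V} (hr : G.Adj b r) (hU : ¬ Z G b c r)
    (hz : Z G b c z) (hx : Z G b c x) (h : OK b c (r :: (M ++ [z]) ++ [x])) :
    Lo G t b c (r :: (M ++ [z])) [x] ↔ Lo G t b c (M ++ [z]) [x, r] := by
  have q := quad C h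
  have q' := quad C (I := M ++ [z]) (J := [x, r]) (h.perm (pcnt fun f => by simp <;> ring))
  have hrc : r ≠ c := (h.ne (v := r) (by simp)).2
  have a1 := seg_left C.conn hr M z
  have a2 := seg_left C.conn hr.symm M z
  have a5 := dist_adj C.conn hr x
  have a6 := dist_adj C.conn hr.symm x
  have a7 := dist_adj C.conn hr.symm c
  have a8 := dpos C.conn hrc
  have a9 := d1 C.adj
  have a11 := d1 hr.symm
  have a12 := d1 hr
  have b1 := dc G r c
  have b2 := dc G z b
  have b3 := dc G z c
  have b4 := dc G x b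
  have b5 := dc G x c
  have b6 := dc G x r
  simp only [Lo, Z, w, seg, seg_append] at *
  omega

/-- reversal after a common neighbour of `b` and `c` -/
lemma p1_link (C : Ctx G t b c) {N : List V} {x : V} (hb : G.Adj b x) (hc : G.Adj c x)
    (h : OK b c (x :: N)) (hT : Tog G b c (x :: N)) (hT' : Tog G b c (x :: N.reverse)) :
    Lo G t b c (x :: N) [] ↔ Lo G t b c (x :: N.reverse) [] := by
  have q := quad C (I := x :: N) (J := []) (h.perm (pcnt fun f => by simp <;> ring))
  have q' := quad C (I := x :: N.reverse) (J := []) (h.perm (pcnt fun f => by simp <;> ring))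
  have a1 := seg_swap C.conn hb N
  have a2 := seg_swap C.conn hb.symm N
  have a3 := seg_swap C.conn hc N
  have a4 := seg_swap C.conn hc.symm N
  have a9 := d1 C.adj
  have a10 := d1 C.adj.symm
  simp only [Lo, Tog, w, seg, seg_reverse] at *
  omega

/-- reversal before a neighbour `y` of `b` of type `U` -/
lemma p2_link (C : Ctx G t b c) {M : List V} {x x' y : V} (hy : G.Adj b y) (hU : ¬ Z G b c y)
    (hx : Z G b c x) (hx' : Z G b c x') (h : OK b c (x :: (M ++ [x'] ++ [y]))) :
    Lo G t b c (x :: (M ++ [x'] ++ [y])) [] ↔ Lo G t b c (x' :: (M.reverse ++ [x] ++ [y])) [] := by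
  have q := quad C (I := x :: (M ++ [x'] ++ [y])) (J := []) (h.perm (pcnt fun f => by simp <;> ring))
  have q' := quad C (I := x' :: (M.reverse ++ [x] ++ [y])) (J := []) (h.perm (pcnt fun f => by simp <;> ring))
  have hyc : y ≠ c := (h.ne (v := y) (by simp)).2
  have a5 := dist_adj C.conn hy x
  have a6 := dist_adj C.conn hy.symm x
  have a5' := dist_adj C.conn hy x'
  have a6' := dist_adj C.conn hy.symm x'
  have a7 := dist_adj C.conn hy.symm c
  have a8 := dpos C.conn hyc
  have a9 := d1 C.adj
  have a10 := d1 C.adj.symm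
  have a11 := d1 hy.symm
  have a12 := d1 hy
  have b1 := dc G y c
  have b2 := dc G x y
  have b3 := dc G x' y
  simp only [Lo, Z, w, seg, seg_append, seg_reverse, List.append_assoc, List.cons_append,
    List.nil_append] at *
  omega

/-- prefix reversal in the free arc -/
lemma p3_link (C : Ctx G t b c) {I A B : List V} {r : V} (hr : G.Adj b r)
    (h : OK b c (I ++ (A ++ r :: B))) (hT : Tog G b c I) :
    Lo G t b c I (A ++ r :: B) ↔ Lo G t b c I (A.reverse ++ r :: B) := by
  have q := quad C h
  have q' := quad C (I := I) (J := A.reverse ++ r :: B) (h.perm (pcnt fun f => by simp <;> ring))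
  have a1 := seg_swap C.conn hr A
  have a2 := seg_swap C.conn hr.symm A
  simp only [Lo, Tog, w, seg_append, seg_reverse] at *
  omega

/-- a 2-opt move along the edge `xp` -/
lemma l3_link (C : Ctx G t b c) {J : List V} {x y y' p : V} (hp : G.Adj x p)
    (hx : Z G b c x) (hy : ¬ Z G b c y) (hy' : ¬ Z G b c y')
    (h : OK b c ([x, y] ++ y' :: p :: J)) :
    Lo G t b c [x, y] (y' :: p :: J) ↔ Lo G t b c [x, y'] (y :: p :: J) := by
  have q := quad C h
  have q' := quad C (I := [x, y']) (J := y :: p :: J) (h.perm (pcnt fun f => by simp <;> ring))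
  have a1 := dist_adj C.conn hp y
  have a2 := dist_adj C.conn hp.symm y
  have a3 := dist_adj C.conn hp y'
  have a4 := dist_adj C.conn hp.symm y'
  have a5 := dist_adj C.conn C.adj y
  have a6 := dist_adj C.conn C.adj.symm y
  have a7 := dist_adj C.conn C.adj y'
  have a8 := dist_adj C.conn C.adj.symm y'
  have b1 := dc G y b
  have b2 := dc G y c
  have b3 := dc G y' b
  have b4 := dc G y' c
  have b5 := dc G y p
  have b6 := dc G y' p
  simp only [Lo, Z, w, seg] at *
  omega

/-- the two parents of a vertex of type `Z` -/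
lemma m_link (C : Ctx G t b c) {M : List V} {x y y' : V} (hy : G.Adj x y) (hy' : G.Adj x y')
    (hx : Z G b c x) (h1 : G.dist b y + 1 = G.dist b x) (h2 : G.dist c y = G.dist b x)
    (h3 : G.dist c y' + 1 = G.dist b x) (h4 : G.dist b y' = G.dist b x)
    (h : OK b c ([x, y] ++ y' :: M)) :
    Lo G t b c [x, y] (y' :: M) ↔ Lo G t b c [x, y'] (y :: M) := by
  have q := quad C h
  have q' := quad C (I := [x, y']) (J := y :: M) (h.perm (pcnt fun f => by simp <;> ring))
  have a1 := d1 hy
  have a2 := d1 hy'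
  have b1 := dc G y b
  have b2 := dc G y c
  have b3 := dc G y' b
  have b4 := dc G y' c
  rcases M with _ | ⟨m, M⟩
  · simp only [Lo, Z, w, seg] at *
    omega
  have a3 := dist_adj C.conn hy m
  have a4 := dist_adj C.conn hy.symm m
  have a5 := dist_adj C.conn hy' m
  have a6 := dist_adj C.conn hy'.symm m
  simp only [Lo, Z, w, seg] at *
  omega

end

end Pool.Agent.Lib.MP_08a7f3_co
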